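import Mathlib
import Pool.Agent.Results.MP_8775f9_nt.NormalOrder
import Pool.Agent.V11109.DEC.Norm

/-!
# The normal order of `S(n)` along sparse sequences

Let `p > 1` be a real number. There is a set `A₀` of real numbers of Hausdorff dimension smaller than
one such that the following holds for all `α > 0` outside `A₀`, with `t_j = ⌊α j ^ p⌋` (there are about
`X ^ (1 / p)` terms up to `X`), and all integers `q ≥ 1`: for all `ε > 0` and `C` for 100% of the `j`, with `n = q t_j`,
one has `|S(n) / log log n - e^(-γ)| < ε` and `S(n) > C`.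
-/

set_option autoImplicit false

namespace Pool.Agent.Results.MP_8775f9_nt.SparseNormalOrder

open Filter N435e839e

open Pool.Agent.V11109.DEC (nterm Few)

/-- `|S(n) / log log n - e^(-γ)| ≥ ε` -/
def Off (ε : ℝ) (n : ℕ) : Prop :=
  ε ≤ |totalSum false n / Real.log (Real.log n) - Real.exp (-Real.eulerMascheroniConstant)|

/-- `S(n) ≤ C` -/
def AtMost (C : ℝ) (n : ℕ) : Prop := totalSum false n ≤ C

/-- **Main result.** -/
theorem result (p : ℝ) (hp : 1 < p) : ∃ A₀ : Set ℝ, dimH A₀ < 1 ∧
    ∀ q : ℕ, 1 ≤ q → ∀ η : ℝ, 0 < η → (∀ ε : ℝ, 0 < ε → Few p A₀ η q (Off ε)) ∧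
      ∀ C : ℝ, Few p A₀ η q (AtMost C) := by
  classical
  refine Pool.Agent.V11109.DEC.Norm.normal_order p hp
    (fun n => totalSum false n / Real.log (Real.log n) - Real.exp (-Real.eulerMascheroniConstant))
    (fun n => totalSum false n) (fun ε hε => ?_) (fun C => ?_)
  · refine (NormalOrder.result.1 ε hε).congr fun N => ?_
    congr 2
  · refine (NormalOrder.result.2 C).congr fun N => ?_
    congr 2

end Pool.Agent.Results.MP_8775f9_nt.SparseNormalOrder
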